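import Pool.Agent.Q226.FL2.OneDefs
import Pool.Agent.H587R2.MRB.APSPDefs

/-!
# All-pairs shortest paths for programs on literals: definitions

The weights of the complete directed graph on `n` vertices are `1` or `W`. The input has a bit for
each position `(e, k)`, where `e = (u, v)` and `k < K` is a tag: the edge from `u` to `v` has the
weight `1` if one of its bits is `1`.
-/

set_option autoImplicit false

namespace Pool.Agent.Q226.APF

open Pool.Agent.H587R2.MRB

/-- the positions: an edge and a tag -/
abbrev Position (n K : ℕ) : Type := (Fin n × Fin n) × Fin K

/-- each edge has at most one tag -/
def OneTag {n K : ℕ} (x : Position n K → Bool) : Prop :=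
  ∀ e k k', x (e, k) = true → x (e, k') = true → k = k'

open Classical in
/-- the weights -/
noncomputable def weight {n K : ℕ} (W : ℕ) (x : Position n K → Bool) : Fin n → Fin n → ℕ :=
  fun u v => if ∃ k, x ((u, v), k) = true then 1 else W

/-- Programs on literals: `P` starts with the value (`0` or `1`) of the literal `p` in the register
`Sum.inl p`, and the estimate of the distance from `u` to `v` is the negative of the number in the
output register `(u, v)` at the end. -/
noncomputable def estimate {n K : ℕ} (P : Prog (Position n K × Bool) (Fin n × Fin n))
    (y : Position n K × Bool → Bool) (u v : Fin n) : ℝ :=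
  -P.answer (initial fun p => if y p = true then 1 else 0) (u, v)

end Pool.Agent.Q226.APF
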