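import Pool.Agent.Q226.APF.Defs
import Pool.Agent.Q226.FL2.One
import Pool.Agent.H587R2.MRB.APSP

/-! # APSP with unreliable negations -/

set_option autoImplicit false

open Finset

namespace Pool.Agent.Q226.APF

open Pool.Agent.Q226.FL2 Pool.Agent.Q226.FLT Pool.Agent.H587R2.MRB

section prog

variable {ι ι' O : Type}

open Classical in
/-- change the contents of a register -/
noncomputable def setReg (s : ι ⊕ ℕ → ℝ) (d : ι ⊕ ℕ) (v : ℝ) : ι ⊕ ℕ → ℝ := Function.update s d v

open Classical in
lemma setReg_self (s : ι ⊕ ℕ → ℝ) (d : ι ⊕ ℕ) (v : ℝ) : setReg s d v d = v := by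
  unfold setReg
  exact Function.update_self _ _ _

open Classical in
lemma setReg_ne (s : ι ⊕ ℕ → ℝ) (d : ι ⊕ ℕ) (v : ℝ) {r : ι ⊕ ℕ} (h : r ≠ d) :
    setReg s d v r = s r := by
  unfold setReg
  exact Function.update_of_ne h _ _

lemma answer_gate (k : ℕ) (src : Fin k → ι ⊕ ℕ) (f : (Fin k → ℝ) → ℝ) (hf : Monotone f)
    (dst : ι ⊕ ℕ) (next : Prog ι O) (s : ι ⊕ ℕ → ℝ) :
    (Prog.gate k src f hf dst next).answer s =
      next.answer (setReg s dst (f fun a => s (src a))) := rfl

lemma cost_gate (k : ℕ) (src : Fin k → ι ⊕ ℕ) (f : (Fin k → ℝ) → ℝ) (hf : Monotone f)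
    (dst : ι ⊕ ℕ) (next : Prog ι O) (s : ι ⊕ ℕ → ℝ) :
    (Prog.gate k src f hf dst next).cost s =
      k + next.cost (setReg s dst (f fun a => s (src a))) := rfl

lemma leaves_gate (k : ℕ) (src : Fin k → ι ⊕ ℕ) (f : (Fin k → ℝ) → ℝ) (hf : Monotone f)
    (dst : ι ⊕ ℕ) (next : Prog ι O) : (Prog.gate k src f hf dst next).leaves = next.leaves := rfl

lemma answer_mono (P : Prog ι O) (hP : P.leaves = 1) {s s' : ι ⊕ ℕ → ℝ} (h : s ≤ s') (o : O) :
    P.answer s o ≤ P.answer s' o := by
  classical
  induction P generalizing s s' with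
  | stop out => exact h (out o)
  | gate k src f hf dst next ih =>
    rw [answer_gate, answer_gate]
    refine ih hP ?_
    intro r
    by_cases hr : r = dst
    · subst hr
      rw [setReg_self, setReg_self]
      exact hf fun a => h (src a)
    · rw [setReg_ne _ _ _ hr, setReg_ne _ _ _ hr]
      exact h r
  | test R c yes no _ _ =>
    exfalso
    have h1 := yes.leaves_pos
    have h2 := no.leaves_pos
    have h3 : yes.leaves + no.leaves = 1 := hP
    omega

lemma cost_const (P : Prog ι O) (hP : P.leaves = 1) (s s' : ι ⊕ ℕ → ℝ) :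
    P.cost s = P.cost s' := by
  classical
  induction P generalizing s s' with
  | stop out => rfl
  | gate k src f hf dst next ih =>
    show k + _ = k + _
    rw [ih hP]
  | test R c yes no _ _ =>
    exfalso
    have h1 := yes.leaves_pos
    have h2 := no.leaves_pos
    have h3 : yes.leaves + no.leaves = 1 := hP
    omega

lemma dual_mono {k : ℕ} {f : (Fin k → ℝ) → ℝ} (hf : Monotone f) :
    Monotone fun z : Fin k → ℝ => -f fun a => -z a :=
  fun _ _ h => neg_le_neg (hf fun a => neg_le_neg (h a))

/-- the program with the negatives of all numbers -/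
def dualP (enc : ι ⊕ ℕ → ℕ) : Prog ι O → Prog ι' O
  | .stop out => .stop fun o => Sum.inr (enc (out o))
  | .gate k src f hf dst next => .gate k (fun a => Sum.inr (enc (src a)))
      (fun z => -f fun a => -z a) (dual_mono hf) (Sum.inr (enc dst))
      (dualP enc next)
  | .test _ _ yes _ => dualP enc yes

lemma dualP_leaves (enc : ι ⊕ ℕ → ℕ) (P : Prog ι O) (hP : P.leaves = 1) :
    (dualP (ι' := ι') enc P).leaves = 1 := by
  induction P with
  | stop out => rfl
  | gate k src f hf dst next ih => exact ih hP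
  | test R c yes no _ _ =>
    exfalso
    have h1 := yes.leaves_pos
    have h2 := no.leaves_pos
    have h3 : yes.leaves + no.leaves = 1 := hP
    omega

lemma dualP_cost (enc : ι ⊕ ℕ → ℕ) (P : Prog ι O) (hP : P.leaves = 1) (s : ι ⊕ ℕ → ℝ)
    (s' : ι' ⊕ ℕ → ℝ) : (dualP (ι' := ι') enc P).cost s' = P.cost s := by
  classical
  induction P generalizing s s' with
  | stop out => rfl
  | gate k src f hf dst next ih =>
    show k + _ = k + _
    rw [ih hP]
  | test R c yes no _ _ =>
    exfalso
    have h1 := yes.leaves_pos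
    have h2 := no.leaves_pos
    have h3 : yes.leaves + no.leaves = 1 := hP
    omega

lemma dualP_answer (enc : ι ⊕ ℕ → ℕ) (henc : Function.Injective enc) (P : Prog ι O)
    (hP : P.leaves = 1) (s : ι ⊕ ℕ → ℝ) (s' : ι' ⊕ ℕ → ℝ)
    (h : ∀ r, s' (Sum.inr (enc r)) = -s r) (o : O) :
    (dualP (ι' := ι') enc P).answer s' o = -P.answer s o := by
  classical
  induction P generalizing s s' with
  | stop out => exact h (out o)
  | gate k src f hf dst next ih =>
    rw [answer_gate]
    unfold dualP
    rw [answer_gate]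
    refine ih hP _ _ ?_
    intro r
    by_cases hr : r = dst
    · subst hr
      rw [setReg_self, setReg_self]
      have h1 : (fun a => -s' (Sum.inr (enc (src a)))) = fun a => s (src a) := by
        funext a
        rw [h, neg_neg]
      show -f (fun a => -s' (Sum.inr (enc (src a)))) = -f fun a => s (src a)
      rw [h1]
    · have h1 : (Sum.inr (enc r) : ι' ⊕ ℕ) ≠ Sum.inr (enc dst) := by
        intro h2
        exact hr (henc (Sum.inr.inj h2))
      rw [setReg_ne _ _ _ h1, setReg_ne _ _ _ hr]
      exact h r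
  | test R c yes no _ _ =>
    exfalso
    have h1 := yes.leaves_pos
    have h2 := no.leaves_pos
    have h3 : yes.leaves + no.leaves = 1 := hP
    omega

end prog

variable {n K : ℕ}

/-- the number that is loaded for the literal `p` -/
noncomputable def lval (t : Fin n × Fin n → Fin K) (p : Position n K × Bool)
    (s : (Fin n × Fin n) ⊕ ℕ → ℝ) : ℝ :=
  if p.2 = true then
    (if p.1.2 = t p.1.1 then (if s (Sum.inl p.1.1) ≤ 1 then -1 else 0) else 0)
  else (if p.1.2 = t p.1.1 then 0 else -1)

lemma load_mono : Monotone fun z : Fin 1 → ℝ => if z 0 ≤ 1 then (-1 : ℝ) else 0 := by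
  intro z z' h
  show (if z 0 ≤ 1 then (-1 : ℝ) else 0) ≤ if z' 0 ≤ 1 then -1 else 0
  have h0 := h 0
  split_ifs
  · exact le_rfl
  · norm_num
  · linarith
  · exact le_rfl

lemma const_mono (c : ℝ) : Monotone fun _ : Fin 0 → ℝ => c := fun _ _ _ => le_rfl

open Classical in
/-- load the negatives of the literals in the list -/
noncomputable def load {O : Type} (t : Fin n × Fin n → Fin K)
    (enc : (Position n K × Bool) ⊕ ℕ → ℕ) :
    List (Position n K × Bool) → Prog (Fin n × Fin n) O → Prog (Fin n × Fin n) O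
  | [], next => next
  | p :: L, next =>
    if p.2 = true ∧ p.1.2 = t p.1.1 then
      .gate 1 (fun _ => Sum.inl p.1.1) (fun z => if z 0 ≤ 1 then -1 else 0) load_mono
        (Sum.inr (enc (Sum.inl p))) (load t enc L next)
    else
      .gate 0 (fun a => a.elim0)
        (fun _ => if p.2 = true then 0 else (if p.1.2 = t p.1.1 then 0 else -1))
        (const_mono _) (Sum.inr (enc (Sum.inl p))) (load t enc L next)

/-- the registers after loading -/
noncomputable def loadS (t : Fin n × Fin n → Fin K) (enc : (Position n K × Bool) ⊕ ℕ → ℕ) :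
    List (Position n K × Bool) → ((Fin n × Fin n) ⊕ ℕ → ℝ) → ((Fin n × Fin n) ⊕ ℕ → ℝ)
  | [], s => s
  | p :: L, s => loadS t enc L (setReg s (Sum.inr (enc (Sum.inl p))) (lval t p s))

lemma load_leaves {O : Type} (t : Fin n × Fin n → Fin K)
    (enc : (Position n K × Bool) ⊕ ℕ → ℕ) (L : List (Position n K × Bool))
    (next : Prog (Fin n × Fin n) O) : (load t enc L next).leaves = next.leaves := by
  induction L with
  | nil => rfl
  | cons p L ih =>
    unfold load
    by_cases h : p.2 = true ∧ p.1.2 = t p.1.1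
    · rw [if_pos h, leaves_gate]
      exact ih
    · rw [if_neg h, leaves_gate]
      exact ih

lemma load_answer {O : Type} (t : Fin n × Fin n → Fin K)
    (enc : (Position n K × Bool) ⊕ ℕ → ℕ) (L : List (Position n K × Bool))
    (next : Prog (Fin n × Fin n) O) (s : (Fin n × Fin n) ⊕ ℕ → ℝ) :
    (load t enc L next).answer s = next.answer (loadS t enc L s) := by
  classical
  induction L generalizing s with
  | nil => rfl
  | cons p L ih =>
    unfold load loadS
    by_cases h : p.2 = true ∧ p.1.2 = t p.1.1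
    · rw [if_pos h, answer_gate, ih]
      have h1 : lval t p s = if s (Sum.inl p.1.1) ≤ 1 then (-1 : ℝ) else 0 := by
        unfold lval
        rw [if_pos h.1, if_pos h.2]
      rw [h1]
    · rw [if_neg h, answer_gate, ih]
      have h1 : (if p.2 = true then (0 : ℝ) else (if p.1.2 = t p.1.1 then 0 else -1)) =
          lval t p s := by
        unfold lval
        by_cases h1 : p.2 = true
        · have h2 : ¬ p.1.2 = t p.1.1 := fun h3 => h ⟨h1, h3⟩
          rw [if_pos h1, if_pos h1, if_neg h2]
        · rw [if_neg h1, if_neg h1]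
      rw [h1]

open Classical in
lemma load_cost {O : Type} (t : Fin n × Fin n → Fin K)
    (enc : (Position n K × Bool) ⊕ ℕ → ℕ) (L : List (Position n K × Bool))
    (next : Prog (Fin n × Fin n) O) (s : (Fin n × Fin n) ⊕ ℕ → ℝ) :
    (load t enc L next).cost s =
      (L.filter fun p => decide (p.2 = true ∧ p.1.2 = t p.1.1)).length +
        next.cost (loadS t enc L s) := by
  induction L generalizing s with
  | nil =>
    unfold load loadS
    simp
  | cons p L ih =>
    unfold load loadS
    by_cases h : p.2 = true ∧ p.1.2 = t p.1.1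
    · rw [if_pos h, List.filter_cons_of_pos (by simpa using h), List.length_cons, cost_gate, ih]
      have h1 : lval t p s = if s (Sum.inl p.1.1) ≤ 1 then (-1 : ℝ) else 0 := by
        unfold lval
        rw [if_pos h.1, if_pos h.2]
      rw [h1]
      ring
    · rw [if_neg h, List.filter_cons_of_neg (by simpa using h), cost_gate, ih, zero_add]
      have h1 : (if p.2 = true then (0 : ℝ) else (if p.1.2 = t p.1.1 then 0 else -1)) =
          lval t p s := by
        unfold lval
        by_cases h1 : p.2 = true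
        · have h2 : ¬ p.1.2 = t p.1.1 := fun h3 => h ⟨h1, h3⟩
          rw [if_pos h1, if_pos h1, if_neg h2]
        · rw [if_neg h1, if_neg h1]
      rw [h1]

lemma loadS_inl (t : Fin n × Fin n → Fin K) (enc : (Position n K × Bool) ⊕ ℕ → ℕ)
    (L : List (Position n K × Bool)) (s : (Fin n × Fin n) ⊕ ℕ → ℝ) (e : Fin n × Fin n) :
    loadS t enc L s (Sum.inl e) = s (Sum.inl e) := by
  induction L generalizing s with
  | nil => rfl
  | cons p L ih =>
    unfold loadS
    rw [ih, setReg_ne _ _ _ (by simp)]

lemma lval_congr (t : Fin n × Fin n → Fin K) (p : Position n K × Bool)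
    {s s' : (Fin n × Fin n) ⊕ ℕ → ℝ} (h : ∀ e, s (Sum.inl e) = s' (Sum.inl e)) :
    lval t p s = lval t p s' := by
  unfold lval
  rw [h]

lemma loadS_other (t : Fin n × Fin n → Fin K) (enc : (Position n K × Bool) ⊕ ℕ → ℕ)
    (L : List (Position n K × Bool)) (s : (Fin n × Fin n) ⊕ ℕ → ℝ) (q : ℕ)
    (h : ∀ p ∈ L, enc (Sum.inl p) ≠ q) : loadS t enc L s (Sum.inr q) = s (Sum.inr q) := by
  induction L generalizing s with
  | nil => rfl
  | cons p L ih =>
    unfold loadS
    rw [ih _ fun p' hp' => h p' (List.mem_cons_of_mem _ hp'), setReg_ne]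
    intro h1
    exact h p List.mem_cons_self (Sum.inr.inj h1).symm

lemma loadS_mem (t : Fin n × Fin n → Fin K) (enc : (Position n K × Bool) ⊕ ℕ → ℕ)
    (henc : Function.Injective enc) (L : List (Position n K × Bool))
    (s : (Fin n × Fin n) ⊕ ℕ → ℝ) (p : Position n K × Bool) (hp : p ∈ L) :
    loadS t enc L s (Sum.inr (enc (Sum.inl p))) = lval t p s := by
  induction L generalizing s with
  | nil => exact absurd hp (by simp)
  | cons p' L ih =>
    unfold loadS
    have h1 : ∀ e, (setReg s (Sum.inr (enc (Sum.inl p'))) (lval t p' s)) (Sum.inl e) =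
        s (Sum.inl e) := fun e => setReg_ne _ _ _ (by simp)
    by_cases h : p ∈ L
    · rw [ih _ h]
      exact lval_congr t p h1
    · have h2 : p = p' := by
        rcases List.mem_cons.mp hp with h3 | h3
        · exact h3
        · exact absurd h3 h
      subst h2
      rw [loadS_other]
      · rw [setReg_self]
      · intro p'' hp'' h3
        have h4 := Sum.inl.inj (henc h3)
        rw [h4] at hp''
        exact h hp''

open Classical in
/-- the program on weights -/
noncomputable def conv {O : Type} (t : Fin n × Fin n → Fin K)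
    (P : Prog (Position n K × Bool) O) : Prog (Fin n × Fin n) O :=
  load t Encodable.encode (univ : Finset (Position n K × Bool)).toList
    (dualP Encodable.encode P)

lemma conv_leaves {O : Type} (t : Fin n × Fin n → Fin K) (P : Prog (Position n K × Bool) O)
    (hP : P.leaves = 1) : (conv t P).leaves = 1 := by
  unfold conv
  rw [load_leaves]
  exact dualP_leaves _ P hP

lemma conv_cost {O : Type} (t : Fin n × Fin n → Fin K) (P : Prog (Position n K × Bool) O)
    (hP : P.leaves = 1) (s : (Fin n × Fin n) ⊕ ℕ → ℝ) (s' : (Position n K × Bool) ⊕ ℕ → ℝ) :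
    (conv t P).cost s = n ^ 2 + P.cost s' := by
  classical
  unfold conv
  rw [load_cost, dualP_cost _ P hP s']
  congr 1
  have h1 : ((univ : Finset (Position n K × Bool)).toList.filter fun p =>
      decide (p.2 = true ∧ p.1.2 = t p.1.1)).length =
      (univ.filter fun p : Position n K × Bool => p.2 = true ∧ p.1.2 = t p.1.1).card := by
    rw [← Finset.length_toList]
    refine List.Perm.length_eq ?_
    refine (List.perm_ext_iff_of_nodup ((Finset.nodup_toList _).filter _)
      (Finset.nodup_toList _)).mpr ?_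
    intro p
    simp
  rw [h1]
  have h2 : n ^ 2 = (univ : Finset (Fin n × Fin n)).card := by
    rw [card_univ, Fintype.card_prod, Fintype.card_fin]
    ring
  rw [h2]
  symm
  refine card_bij (fun e _ => ((e, t e), true)) ?_ ?_ ?_
  · intro e _
    simp
  · intro e _ e' _ h
    exact (Prod.mk.inj (Prod.mk.inj h).1).1
  · rintro ⟨⟨e, k⟩, b⟩ hp
    simp only [mem_filter, mem_univ, true_and] at hp
    exact ⟨e, mem_univ _, by rw [hp.1, hp.2]⟩

open Classical in
lemma conv_answer {W : ℕ} (hW : 1 < W) (t : Fin n × Fin n → Fin K)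
    (P : Prog (Position n K × Bool) (Fin n × Fin n)) (hP : P.leaves = 1)
    (w : Fin n → Fin n → ℕ) (hw : ∀ u v, w u v = 1 ∨ w u v = W) (u v : Fin n) :
    (conv t P).answer (input w) (u, v) =
      estimate P (rl1 t fun e => decide (w e.1 e.2 = 1)) u v := by
  unfold conv estimate
  rw [load_answer]
  refine dualP_answer _ Encodable.encode_injective P hP _ _ ?_ _
  rintro (p | q)
  · rw [loadS_mem t _ Encodable.encode_injective _ _ p (by simp)]
    show _ = -(if rl1 t (fun e => decide (w e.1 e.2 = 1)) p = true then (1 : ℝ) else 0)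
    unfold lval rl1 host
    obtain ⟨⟨e, k⟩, b⟩ := p
    rcases b with _ | _
    · by_cases hk : k = t e <;> simp [hk]
    · by_cases hk : k = t e
      · have h1 : input w (Sum.inl e) = (w e.1 e.2 : ℝ) := rfl
        rcases hw e.1 e.2 with h2 | h2
        · simp [hk, h1, h2]
        · have h3 : ¬ W = 1 := by omega
          have h4 : ¬ W ≤ 1 := by omega
          simp [hk, h1, h2, h3, h4]
      · simp [hk]
  · rw [loadS_other]
    · show (0 : ℝ) = -0
      simp
    · intro p _ h
      exact absurd (Encodable.encode_injective h) (by simp)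

lemma oneTag_host (t : Fin n × Fin n → Fin K) (M : Fin n × Fin n → Bool) :
    OneTag (host t M) := by
  intro e k k' h h'
  unfold host at h h'
  simp only [Bool.and_eq_true, decide_eq_true_eq] at h h'
  rw [h.2, h'.2]

lemma weight_host {W : ℕ} (t : Fin n × Fin n → Fin K) (w : Fin n → Fin n → ℕ)
    (hw : ∀ u v, w u v = 1 ∨ w u v = W) :
    weight W (host t fun e : Fin n × Fin n => decide (w e.1 e.2 = 1)) = w := by
  funext u v
  unfold weight host
  by_cases h : w u v = 1
  · rw [if_pos]
    · exact h.symm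
    · exact ⟨t (u, v), by simp [h]⟩
  · rw [if_neg]
    · rcases hw u v with h1 | h1
      · exact absurd h1 h
      · exact h1.symm
    · rintro ⟨k, hk⟩
      simp [h] at hk

lemma const_bound : (1 : ℝ) / 1790 ≤ (1 / 20 : ℝ) ^ (5 / 2 : ℝ) := by
  have h1 : ((1 / 20 : ℝ) ^ (5 / 2 : ℝ)) ^ 2 = 1 / 3200000 := by
    rw [← Real.rpow_natCast, ← Real.rpow_mul (by norm_num)]
    norm_num
  have h2 : (0 : ℝ) ≤ (1 / 20 : ℝ) ^ (5 / 2 : ℝ) := by positivity
  refine le_of_sq_le_sq ?_ h2 
  rw [h1]
  norm_num

theorem main (n : ℕ) (hn : 3 * 10 ^ 6 ≤ n) (W D K : ℕ) (α : ℝ) (hα : 1 ≤ α) (hW : 2 * α < W)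
    (hD : 1 ≤ D) (hK : D * Real.log (40 * n ^ 2) ≤ K) (Ω : Type) [Fintype Ω] [Nonempty Ω]
    (P : Ω → Prog (Position n K × Bool) (Fin n × Fin n)) (hP : ∀ ω, (P ω).leaves = 1)
    (h : ∀ x : Position n K → Bool, OneTag x → ∀ u v, u ≠ v →
      4 / 5 ≤ faultyProbability (fun ω y => estimate (P ω) y u v ≤ α * dist (weight W x) u v) D x ∧
      4 / 5 ≤ probability (fun ω y => (dist (weight W x) u v : ℝ) ≤ estimate (P ω) y u v) x) :
    ∃ ω, ∀ s, (n : ℝ) ^ 3 ≤ 10 ^ 6 * (P ω).cost s := by
  classical
  have hn1 : 1 ≤ n := by omega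
  have hnR : (3 * 10 ^ 6 : ℝ) ≤ n := by exact_mod_cast hn
  have hDR : (1 : ℝ) ≤ D := by exact_mod_cast hD
  have hW1 : 1 < W := by
    have : (1 : ℝ) < W := by linarith
    exact_mod_cast this
  have hcard : Fintype.card (Fin n × Fin n) = n ^ 2 := by
    rw [Fintype.card_prod, Fintype.card_fin]
    ring
  have hcard0 : 0 < Fintype.card (Fin n × Fin n) := by
    rw [hcard]
    positivity
  have hK' : D * Real.log (2 * Fintype.card (Fin n × Fin n) / (1 / 20)) ≤ K := by
    rw [hcard]
    push_cast
    have : (2 * (n : ℝ) ^ 2 / (1 / 20)) = 40 * n ^ 2 := by ring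
    rw [this]
    exact hK
  have hK0 : 0 < K := by
    have h1 : 0 < Real.log (40 * n ^ 2) := Real.log_pos (by nlinarith)
    have h3 : (0 : ℝ) < K := lt_of_lt_of_le (by positivity) hK
    exact_mod_cast h3
  have : Nonempty (Fin K) := ⟨⟨0, hK0⟩⟩
  have hpos : (0 : ℝ) < Fintype.card (Ω × (Fin n × Fin n → Fin K)) := by
    exact_mod_cast Fintype.card_pos
  have hmono : ∀ (ω : Ω) (u v : Fin n) (y z : Position n K × Bool → Bool), y ≤ z →
      estimate (P ω) z u v ≤ estimate (P ω) y u v := by
    intro ω u v y z hyz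
    unfold estimate
    refine neg_le_neg (answer_mono (P ω) (hP ω) ?_ _)
    rintro (p | q)
    · show (if y p = true then (1 : ℝ) else 0) ≤ if z p = true then 1 else 0
      by_cases h1 : y p = true
      · have h2 : z p = true := by
          have := hyz p
          rw [h1] at this
          exact Bool.eq_true_of_true_le this
        rw [if_pos h1, if_pos h2]
      · rw [if_neg h1]
        by_cases h2 : z p = true
        · rw [if_pos h2]; norm_num
        · rw [if_neg h2]
    · exact le_rfl
  have hS : SolvesAPSP W α (1 / 20)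
      (fun _ : Ω × (Fin n × Fin n → Fin K) =>
        1 / (Fintype.card (Ω × (Fin n × Fin n → Fin K)) : ℝ))
      (fun o => conv o.2 (P o.1)) := by
    refine ⟨fun _ => by positivity, ?_, ?_⟩
    · rw [sum_const, card_univ, nsmul_eq_mul, mul_one_div, div_self hpos.ne']
    · intro w hw u v huv
      rw [sum_const, nsmul_eq_mul, mul_one_div, le_div_iff₀ hpos]
      have e1 := one_yes (η := 1 / 20) hD hK0 (by norm_num) hcard0 hK'
        (fun ω y => estimate (P ω) y u v ≤ α * dist w u v)
        (fun ω y z hyz h1 => (hmono ω u v y z hyz).trans h1)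
        (fun e => decide (w e.1 e.2 = 1)) (A := 3 / 4)
        (fun t => by
          have h3 := (h (host t fun e => decide (w e.1 e.2 = 1)) (oneTag_host t _) u v huv).1
          rw [weight_host t w hw] at h3
          exact le_trans (by norm_num) h3)
      have e2 := one_no hK0 (fun ω y => estimate (P ω) y u v < dist w u v)
        (fun ω y z hyz h1 => (hmono ω u v y z hyz).trans_lt h1)
        (fun e => decide (w e.1 e.2 = 1)) (B := 1 / 5)
        (fun t => by
          have h3 := (h (host t fun e => decide (w e.1 e.2 = 1)) (oneTag_host t _) u v huv).2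
          rw [weight_host t w hw] at h3
          have hΩ : (0 : ℝ) < Nat.card Ω := by
            rw [Nat.card_eq_fintype_card]
            exact_mod_cast Fintype.card_pos
          unfold probability at h3 ⊢
          rw [le_div_iff₀ hΩ] at h3
          rw [div_le_iff₀ hΩ]
          have h4 : (Nat.card Ω : ℝ) = (Nat.card {ω : Ω // (dist w u v : ℝ) ≤
              estimate (P ω) (literals (host t fun e => decide (w e.1 e.2 = 1)) ∅) u v} : ℝ) +
              (Nat.card {ω : Ω // estimate (P ω)
                (literals (host t fun e => decide (w e.1 e.2 = 1)) ∅) u v < dist w u v} : ℝ) := by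
            rw [← Nat.cast_add]
            congr 1
            simp only [Nat.card_eq_fintype_card, Fintype.card_subtype]
            rw [← card_univ, ← Finset.card_filter_add_card_filter_not (s := (univ : Finset Ω))
              (fun ω => (dist w u v : ℝ) ≤
              estimate (P ω) (literals (host t fun e => decide (w e.1 e.2 = 1)) ∅) u v)]
            congr 2
            ext ω
            simp only [mem_filter, mem_univ, true_and, not_le]
          linarith)
      have e3 : (3 / 4 * Fintype.card (Ω × (Fin n × Fin n → Fin K)) : ℝ) ≤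
          1 / 5 * Fintype.card (Ω × (Fin n × Fin n → Fin K)) +
            ((univ.filter fun o : Ω × (Fin n × Fin n → Fin K) =>
              Approx α (conv o.2 (P o.1)) w u v).card : ℝ) := by
        refine e1.trans (le_trans ?_ (add_le_add e2 le_rfl))
        rw [← Nat.cast_add]
        refine Nat.cast_le.mpr ((card_le_card fun o ho => ?_).trans (card_union_le _ _))
        simp only [mem_union, mem_filter, mem_univ, true_and] at ho ⊢
        by_cases h5 : estimate (P o.1) (rl1 o.2 fun e => decide (w e.1 e.2 = 1)) u v < dist w u v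
        · exact Or.inl h5
        · refine Or.inr ?_
          unfold Approx
          rw [conv_answer hW1 o.2 (P o.1) (hP o.1) w hw u v]
          exact ⟨not_lt.mp h5, ho⟩
      linarith
  obtain ⟨w, hw, hcost⟩ := apsp_bound (δ := 1 / 20) (m := 1) (by norm_num) (by norm_num) (by
    push_cast
    nlinarith) hα hW _ _ hS (fun o => (conv_leaves o.2 (P o.1) (hP o.1)).le)
  -- some member is expensive
  by_contra hcon
  push Not at hcon
  have hup : expCost (fun _ : Ω × (Fin n × Fin n → Fin K) =>
        1 / (Fintype.card (Ω × (Fin n × Fin n → Fin K)) : ℝ))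
      (fun o => conv o.2 (P o.1)) w ≤ (n : ℝ) ^ 2 + (n : ℝ) ^ 3 / 10 ^ 6 := by
    unfold expCost
    have h1 : ∀ o : Ω × (Fin n × Fin n → Fin K),
        1 / (Fintype.card (Ω × (Fin n × Fin n → Fin K)) : ℝ) *
          ((conv o.2 (P o.1)).cost (input w) : ℝ) ≤
        1 / (Fintype.card (Ω × (Fin n × Fin n → Fin K)) : ℝ) *
          ((n : ℝ) ^ 2 + (n : ℝ) ^ 3 / 10 ^ 6) := by
      intro o
      refine mul_le_mul_of_nonneg_left ?_ (by positivity)
      obtain ⟨s, hs⟩ := hcon o.1
      rw [conv_cost o.2 (P o.1) (hP o.1) _ s]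
      push_cast
      have h2 : ((P o.1).cost s : ℝ) ≤ (n : ℝ) ^ 3 / 10 ^ 6 := by
        rw [le_div_iff₀ (by norm_num)]
        linarith
      linarith
    refine (sum_le_sum fun o _ => h1 o).trans (le_of_eq ?_)
    rw [sum_const, card_univ, nsmul_eq_mul, ← mul_assoc, mul_one_div, div_self hpos.ne', one_mul]
  have h2 := const_bound
  have h3 : (1 : ℝ) / 1790 * (n : ℝ) ^ 3 ≤ (1 / 20 : ℝ) ^ (5 / 2 : ℝ) * (n : ℝ) ^ 3 :=
    mul_le_mul_of_nonneg_right h2 (by positivity)
  have h4 : ((1 : ℕ) : ℝ) ^ (3 / 2 : ℝ) = 1 := by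
    rw [Nat.cast_one, Real.one_rpow]
  rw [h4] at hcost
  have h5 : (1 : ℝ) / 1790 * (n : ℝ) ^ 3 ≤ 400 * ((n : ℝ) ^ 2 + (n : ℝ) ^ 3 / 10 ^ 6) := by
    linarith
  have h6 : (0 : ℝ) < (n : ℝ) ^ 2 := by positivity
  have h7 : (n : ℝ) ^ 3 = n * n ^ 2 := by ring
  rw [h7] at h5
  nlinarith

end Pool.Agent.Q226.APF
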